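import Mathlib

set_option autoImplicit false

/-!
# Integers at which a slowly jumping sequence is large

`a` is a monotone non-negative sequence with `a n ≤ (1 + o(1)) n` and
`a (n + 1) + 2 a n ≤ (5 / 2 + o(1)) n` whenever `a n < a (n + 1)`.  Then, for `5 / 6 < β ≤ 1`,
the integers `n` with `a n > β n` have upper density at most `4 (1 - β)`.
-/

open Finset Filter Topology

namespace Pool.Agent.H1D

/-- the number of `n ∈ [1, N]` with `a n > β n` -/
noncomputable def B (a : ℕ → ℝ) (β : ℝ) (N : ℕ) : ℕ :=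
  ((Icc 1 N).filter (fun n : ℕ => β * n < a n)).card

variable {a : ℕ → ℝ} {β : ℝ}

theorem B_le (N : ℕ) : B a β N ≤ N := by
  unfold B
  refine (card_filter_le _ _).trans ?_
  rw [Nat.card_Icc]
  omega

theorem B_bad {N : ℕ} (h : β * ((N + 1 : ℕ) : ℝ) < a (N + 1)) : B a β (N + 1) = B a β N + 1 := by
  unfold B
  have e : Icc 1 (N + 1) = insert (N + 1) (Icc 1 N) := by
    ext x
    simp only [mem_insert, mem_Icc]
    omega
  rw [e, filter_insert, if_pos h, card_insert_of_notMem]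
  intro h1
  have := (mem_Icc.1 (mem_filter.1 h1).1).2
  omega

theorem B_good {N : ℕ} (h : ¬ β * ((N + 1 : ℕ) : ℝ) < a (N + 1)) : B a β (N + 1) = B a β N := by
  unfold B
  have e : Icc 1 (N + 1) = insert (N + 1) (Icc 1 N) := by
    ext x
    simp only [mem_insert, mem_Icc]
    omega
  rw [e, filter_insert, if_neg h]

/-- The two invariants. -/
theorem core {lam ε C κ : ℝ} {n1 : ℕ} (hmono : Monotone a) (ha0 : ∀ n, 0 ≤ a n) (hβ : 0 < β)
    (hlam0 : 0 ≤ lam) (hε : 0 ≤ ε)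
    (c1 : 3 * β < (3 * β - 5 / 2 - ε) * (n1 + 1)) (c2 : lam * (5 / 4 + ε / 2) ≤ 1)
    (hκ : κ = 3 * lam / 2 - 1 / β + (1 - lam * (5 / 4 + ε / 2)) / (1 + ε)) (hκ0 : 0 < κ)
    (c3 : 1 ≤ β * n1 * κ)
    (F1 : ∀ n, n1 ≤ n → a n ≤ (1 + ε) * n)
    (F2 : ∀ n, n1 ≤ n → a n < a (n + 1) → a (n + 1) + 2 * a n ≤ (5 / 2 + ε) * ((n + 1 : ℕ) : ℝ))
    (hC : (n1 : ℝ) ≤ C) (N : ℕ) (hN : n1 ≤ N) :
    (¬ β * N < a N → (B a β N : ℝ) ≤ lam * a N + C) ∧
      (β * N < a N → ∃ j : ℕ, j ≤ N ∧ a N ≤ (1 + ε) * j ∧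
        (B a β N : ℝ) ≤ lam * ((5 / 2 + ε) * j - a N) / 2 + C + (N - j + 1)) := by
  induction N, hN using Nat.le_induction with
  | base =>
    have h1 : (B a β n1 : ℝ) ≤ n1 := by exact_mod_cast B_le n1
    have h2 : 0 ≤ lam * a n1 := mul_nonneg hlam0 (ha0 n1)
    have hn0 : (0 : ℝ) ≤ n1 := Nat.cast_nonneg n1
    refine ⟨fun _ => by linarith, fun _ => ⟨n1, le_rfl, F1 n1 le_rfl, ?_⟩⟩
    have h3 : 0 ≤ lam * ((5 / 2 + ε) * n1 - a n1) := by
      apply mul_nonneg hlam0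
      have := F1 n1 le_rfl
      nlinarith
    linarith
  | succ N hN ih =>
    obtain ⟨ihg, ihb⟩ := ih
    have hn1 : (n1 : ℝ) ≤ N := by exact_mod_cast hN
    have hcast : ((N + 1 : ℕ) : ℝ) = N + 1 := by push_cast; ring
    rcases (hmono (Nat.le_succ N)).lt_or_eq with hlt | heq
    · -- a jump
      have hF2 := F2 N hN hlt
      rw [hcast] at hF2
      have hgood : ¬ β * N < a N := by
        intro hbad
        have h1 : (3 * β - 5 / 2 - ε) * (n1 + 1) ≤ (3 * β - 5 / 2 - ε) * (N + 1) := by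
          apply mul_le_mul_of_nonneg_left (by linarith)
          by_contra hneg
          push Not at hneg
          have : (3 * β - 5 / 2 - ε) * ((n1 : ℝ) + 1) ≤ 0 :=
            mul_nonpos_of_nonpos_of_nonneg hneg.le (by positivity)
          linarith
        nlinarith
      have hB := ihg hgood
      refine ⟨fun h => ?_, fun h => ⟨N + 1, le_rfl, F1 _ (by omega), ?_⟩⟩
      · rw [B_good h]
        have : lam * a N ≤ lam * a (N + 1) := mul_le_mul_of_nonneg_left hlt.le hlam0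
        linarith
      · rw [B_bad h, hcast]
        push_cast
        have : lam * a N ≤ lam * (((5 / 2 + ε) * (N + 1) - a (N + 1)) / 2) :=
          mul_le_mul_of_nonneg_left (by linarith) hlam0
        linarith
    · -- no jump
      rw [← Nat.succ_eq_add_one, ← heq]
      rw [Nat.succ_eq_add_one, hcast]
      by_cases hbad : β * N < a N
      · obtain ⟨j, hj, hj1, hjB⟩ := ihb hbad
        refine ⟨fun h => ?_, fun h => ⟨j, by omega, hj1, ?_⟩⟩
        · have h' : ¬ β * ((N + 1 : ℕ) : ℝ) < a (N + 1) := by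
            rw [hcast, ← Nat.succ_eq_add_one, ← heq]
            exact h
          rw [B_good h']
          push Not at h
          -- `N < a / β`
          have h1 : (N : ℝ) ≤ a N / β := by
            rw [le_div_iff₀ hβ]
            linarith
          have h2 : a N / (1 + ε) ≤ j := by
            rw [div_le_iff₀ (by linarith)]
            linarith
          have h3 : (1 - lam * (5 / 4 + ε / 2)) * (a N / (1 + ε)) ≤
              (1 - lam * (5 / 4 + ε / 2)) * j :=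
            mul_le_mul_of_nonneg_left h2 (by linarith)
          have h4 : 1 ≤ a N * κ := by
            refine c3.trans (mul_le_mul_of_nonneg_right ?_ hκ0.le)
            nlinarith
          have h5 : a N * κ = 3 * lam / 2 * a N - a N / β +
              (1 - lam * (5 / 4 + ε / 2)) * (a N / (1 + ε)) := by
            rw [hκ]
            ring
          linarith
        · have h' : β * ((N + 1 : ℕ) : ℝ) < a (N + 1) := by
            rw [hcast, ← Nat.succ_eq_add_one, ← heq]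
            exact h
          rw [B_bad h']
          push_cast
          linarith
      · have h0 : ¬ β * ((N : ℝ) + 1) < a N := by
          intro h
          apply hbad
          nlinarith
        have h' : ¬ β * ((N + 1 : ℕ) : ℝ) < a (N + 1) := by
          rw [hcast, ← Nat.succ_eq_add_one, ← heq]
          exact h0
        refine ⟨fun _ => ?_, fun h => absurd h h0⟩
        rw [B_good h']
        exact ihg hbad

/-- The bound for the number of bad integers. -/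
theorem density_aux {η : ℝ} (hmono : Monotone a) (ha0 : ∀ n, 0 ≤ a n) (hβ : 5 / 6 < β)
    (hβ1 : β ≤ 1) (hη : 0 < η)
    (F1 : ∀ ε : ℝ, 0 < ε → ∀ᶠ n : ℕ in atTop, a n ≤ (1 + ε) * n)
    (F2 : ∀ ε : ℝ, 0 < ε → ∀ᶠ n : ℕ in atTop, a n < a (n + 1) →
      a (n + 1) + 2 * a n ≤ (5 / 2 + ε) * ((n + 1 : ℕ) : ℝ)) :
    ∀ᶠ N : ℕ in atTop, (B a β N : ℝ) ≤ (4 * (1 - β) + η) * N := by
  have hβ0 : 0 < β := by linarith
  obtain ⟨τ, hτ⟩ : ∃ τ : ℝ, τ = 1 / β - 1 := ⟨_, rfl⟩
  have hτβ : τ * β = 1 - β := by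
    rw [hτ]
    field_simp
  have hτ0 : 0 ≤ τ := by
    have : 1 ≤ 1 / β := by rw [le_div_iff₀ hβ0]; linarith
    linarith
  have hτ5 : τ < 1 / 5 := by
    have : 1 / β < 6 / 5 := by rw [div_lt_iff₀ hβ0]; linarith
    linarith
  -- the parameters
  obtain ⟨σ, hσ0, hσ1, hση⟩ : ∃ σ : ℝ, 0 < σ ∧ σ ≤ (1 / 5 - τ) ∧ σ ≤ η / 2 :=
    ⟨min (1 / 5 - τ) (η / 2), lt_min (by linarith) (by linarith), min_le_left _ _,
      min_le_right _ _⟩
  obtain ⟨lam, hlam⟩ : ∃ lam : ℝ, lam = 4 * τ + σ := ⟨_, rfl⟩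
  obtain ⟨ε, hε0, hε1, hε2, hε3⟩ : ∃ ε : ℝ, 0 < ε ∧ ε ≤ σ / 10 ∧ ε ≤ (3 * β - 5 / 2) / 2 ∧
      ε ≤ 1 := by
    refine ⟨min (σ / 10) (min ((3 * β - 5 / 2) / 2) 1), lt_min (by linarith)
      (lt_min (by linarith) one_pos), min_le_left _ _,
      (min_le_right _ _).trans (min_le_left _ _), (min_le_right _ _).trans (min_le_right _ _)⟩
  have hlam0 : 0 ≤ lam := by rw [hlam]; linarith
  have hlam45 : lam ≤ 4 / 5 := by rw [hlam]; linarith
  -- `lam * 5 / 4 = 5 τ + 5 σ / 4 ≤ 1 - ...`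
  have hl2 : lam * (5 / 4) ≤ 1 - (1 / 5 - τ) * 3 := by rw [hlam]; nlinarith
  have hle : lam * (ε / 2) ≤ 2 / 5 * ε := by nlinarith
  have c2 : lam * (5 / 4 + ε / 2) ≤ 1 := by nlinarith
  obtain ⟨κ, hκ⟩ : ∃ κ : ℝ, κ = 3 * lam / 2 - 1 / β + (1 - lam * (5 / 4 + ε / 2)) / (1 + ε) :=
    ⟨_, rfl⟩
  have hfrac : 1 - lam * (5 / 4) - 7 / 5 * ε ≤ (1 - lam * (5 / 4 + ε / 2)) / (1 + ε) := by
    rw [le_div_iff₀ (by linarith)]
    have h1 : 0 ≤ lam * (5 / 4) * ε := by positivity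
    nlinarith
  have hκ0 : 0 < κ := by
    rw [hκ]
    have : 1 / β = τ + 1 := by rw [hτ]; ring
    rw [this]
    have h1 : 3 * lam / 2 - (τ + 1) + (1 - lam * (5 / 4) - 7 / 5 * ε) = σ / 4 - 7 / 5 * ε := by
      rw [hlam]; ring
    nlinarith
  have hE := (F1 ε hε0).and (F2 ε hε0)
  obtain ⟨n0, hn0⟩ := eventually_atTop.1 hE
  obtain ⟨n1, hn1, hn1a, hn1b⟩ : ∃ n1 : ℕ, n0 ≤ n1 ∧
      3 * β < (3 * β - 5 / 2 - ε) * (n1 + 1) ∧ 1 ≤ β * n1 * κ := by
    have hpos : 0 < 3 * β - 5 / 2 - ε := by linarith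
    refine ⟨max n0 (max ⌈3 * β / (3 * β - 5 / 2 - ε)⌉₊ ⌈1 / (β * κ)⌉₊), le_max_left _ _, ?_, ?_⟩
    · have h1 : 3 * β / (3 * β - 5 / 2 - ε) ≤
          ((max n0 (max ⌈3 * β / (3 * β - 5 / 2 - ε)⌉₊ ⌈1 / (β * κ)⌉₊) : ℕ) : ℝ) :=
        (Nat.le_ceil _).trans
          (by exact_mod_cast (le_max_left _ _).trans (le_max_right _ _))
      rw [div_le_iff₀ hpos] at h1
      linarith
    · have h1 : 1 / (β * κ) ≤
          ((max n0 (max ⌈3 * β / (3 * β - 5 / 2 - ε)⌉₊ ⌈1 / (β * κ)⌉₊) : ℕ) : ℝ) :=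
        (Nat.le_ceil _).trans
          (by exact_mod_cast (le_max_right _ _).trans (le_max_right _ _))
      rw [div_le_iff₀ (by positivity)] at h1
      linarith
  have hcore := core (a := a) (β := β) (lam := lam) (ε := ε) (C := n1) (κ := κ) (n1 := n1)
    hmono ha0 hβ0 hlam0 hε0.le hn1a c2 hκ hκ0 hn1b
    (fun n hn => (hn0 n (hn1.trans hn)).1) (fun n hn => (hn0 n (hn1.trans hn)).2) le_rfl
  -- the final estimate
  have hfin : ∀ N : ℕ, n1 ≤ N → (B a β N : ℝ) ≤ (4 * (1 - β) + η / 2) * N + (n1 + 1) := by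
    intro N hN
    obtain ⟨hg, hb⟩ := hcore N hN
    have hN0 : (0 : ℝ) ≤ N := Nat.cast_nonneg N
    by_cases hbad : β * N < a N
    · obtain ⟨j, hj, hj1, hjB⟩ := hb hbad
      have hjr : β * N / (1 + ε) ≤ j := by
        rw [div_le_iff₀ (by linarith)]
        linarith
      have h1 : (1 - lam * (5 / 4 + ε / 2)) * (β * N / (1 + ε)) ≤
          (1 - lam * (5 / 4 + ε / 2)) * j := mul_le_mul_of_nonneg_left hjr (by linarith)
      have h2 : (1 - lam * (5 / 4) - 7 / 5 * ε) * (β * N) ≤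
          (1 - lam * (5 / 4 + ε / 2)) * (β * N / (1 + ε)) := by
        have := mul_le_mul_of_nonneg_right hfrac (show 0 ≤ β * (N : ℝ) by positivity)
        calc (1 - lam * (5 / 4) - 7 / 5 * ε) * (β * N) ≤
            (1 - lam * (5 / 4 + ε / 2)) / (1 + ε) * (β * N) := this
          _ = (1 - lam * (5 / 4 + ε / 2)) * (β * N / (1 + ε)) := by ring
      have h3 : lam * (β * N) ≤ lam * a N := mul_le_mul_of_nonneg_left hbad.le hlam0
      -- total coefficient
      have h4 : lam * β = 4 * (1 - β) + σ * β := by rw [hlam, ← hτβ]; ring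
      have h5 : σ * β ≤ σ := by nlinarith
      have h6 : 7 / 5 * ε * β ≤ 7 / 50 * σ := by nlinarith
      have h7 : ((3 / 4) * (lam * β) + (1 - β) + 7 / 5 * ε * β) * (N : ℝ) ≤
          (4 * (1 - β) + η / 2) * N := by
        apply mul_le_mul_of_nonneg_right _ hN0
        rw [h4]
        linarith
      nlinarith
    · have h1 := hg hbad
      push Not at hbad
      have h2 : lam * a N ≤ lam * (β * N) := mul_le_mul_of_nonneg_left hbad hlam0
      have h4 : lam * β = 4 * (1 - β) + σ * β := by rw [hlam, ← hτβ]; ring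
      have h5 : σ * β ≤ η / 2 := by nlinarith
      have h6 : lam * β * (N : ℝ) ≤ (4 * (1 - β) + η / 2) * N := by
        apply mul_le_mul_of_nonneg_right _ hN0
        linarith
      nlinarith
  filter_upwards [eventually_ge_atTop n1, eventually_ge_atTop ⌈2 * ((n1 : ℝ) + 1) / η⌉₊]
    with N h1 h2
  have h3 := hfin N h1
  have h4 : 2 * ((n1 : ℝ) + 1) / η ≤ N := (Nat.le_ceil _).trans (by exact_mod_cast h2)
  rw [div_le_iff₀ hη] at h4
  nlinarith

/-- If `a n ≥ β n` for all large `n`, then `a n ≤ (5 / 2 - 2 β + o(1)) n`. -/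
theorem upper_of_lower {ε : ℝ} (hmono : Monotone a) (hε : 0 < ε)
    (F1 : ∀ ε : ℝ, 0 < ε → ∀ᶠ n : ℕ in atTop, a n ≤ (1 + ε) * n)
    (F2 : ∀ ε : ℝ, 0 < ε → ∀ᶠ n : ℕ in atTop, a n < a (n + 1) →
      a (n + 1) + 2 * a n ≤ (5 / 2 + ε) * ((n + 1 : ℕ) : ℝ))
    (h : ∀ᶠ n : ℕ in atTop, β * n ≤ a n) :
    ∀ᶠ N : ℕ in atTop, a N ≤ (5 / 2 - 2 * β + ε) * N := by
  have hβ : β ≤ 5 / 4 := by
    obtain ⟨n, ⟨h1, h2⟩, h3⟩ := ((h.and (F1 (1 / 4) (by norm_num))).and
      (eventually_ge_atTop 1)).exists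
    have hn : (0 : ℝ) < n := by exact_mod_cast h3
    by_contra hcon
    push Not at hcon
    nlinarith
  obtain ⟨n1, hn1⟩ := eventually_atTop.1 (h.and (F2 (ε / 2) (by linarith)))
  have key : ∀ N : ℕ, n1 ≤ N → a N ≤ (5 / 2 - 2 * β + ε / 2) * N + max (a n1) 3 := by
    intro N hN
    induction N, hN using Nat.le_induction with
    | base =>
      have h1 : 0 ≤ (5 / 2 - 2 * β + ε / 2) * (n1 : ℝ) :=
        mul_nonneg (by linarith) (Nat.cast_nonneg _)
      have h2 := le_max_left (a n1) 3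
      linarith
    | succ N hN ih =>
      have hcast : ((N + 1 : ℕ) : ℝ) = N + 1 := by push_cast; ring
      rcases (hmono (Nat.le_succ N)).lt_or_eq with hlt | heq
      · have h1 := (hn1 N hN).2 hlt
        have h2 := (hn1 N hN).1
        have h3 := le_max_right (a n1) 3
        rw [hcast] at h1 ⊢
        nlinarith
      · rw [← Nat.succ_eq_add_one, ← heq, Nat.succ_eq_add_one, hcast]
        nlinarith
  filter_upwards [eventually_ge_atTop n1, eventually_ge_atTop ⌈max (a n1) 3 / (ε / 2)⌉₊]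
    with N h1 h2
  have h3 := key N h1
  have h4 : max (a n1) 3 / (ε / 2) ≤ N := (Nat.le_ceil _).trans (by exact_mod_cast h2)
  rw [div_le_iff₀ (by linarith)] at h4
  nlinarith

end Pool.Agent.H1D
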